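import Pool.Agent.Helper89.RedMain
import Pool.Agent.Helper89.Comp
import Pool.Agent.Helper89.MemProg

/-!
# ORTH3 is complete for the existential theory of the reals

All notions used in the statement are defined in `Pool.Agent.Helper89.Defs`.
-/

open Pool.Agent.Helper89

namespace Pool.Agent.Results.MP_e14cd3_lc.Orth3Complete

/-- polynomial-time many-one reducibility is transitive -/
theorem polyTimeReduces_trans {A B C : DecisionProblem} (h₁ : PolyTimeReduces A B)
    (h₂ : PolyTimeReduces B C) : PolyTimeReduces A C := by
  obtain ⟨f, ⟨hf⟩, hf'⟩ := h₁
  obtain ⟨g, ⟨hg⟩, hg'⟩ := h₂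
  exact ⟨g ∘ f, TM2Poly.comp hf hg, fun a => (hf' a).trans (hg' (f a))⟩

/-- every problem of the class reduces to ORTH3 -/
theorem orth3_hard : ExistsRHard ORTH3 := fun _ hA => polyTimeReduces_trans hA etr_reduces_orth3

end Pool.Agent.Results.MP_e14cd3_lc.Orth3Complete

/-- **ORTH3 is complete for the existential theory of the reals.**  Deciding whether a finite
graph has an orthogonal representation in three-space (nonzero vectors, pairwise non-collinear,
orthogonal along the edges) belongs to the class of the existential theory of the reals, and every
problem of this class reduces to it by a polynomial-time many-one reduction. -/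
theorem Pool.Agent.Results.MP_e14cd3_lc.Orth3Complete.result : ExistsRComplete ORTH3 :=
  ⟨orth3_inExistsR, Pool.Agent.Results.MP_e14cd3_lc.Orth3Complete.orth3_hard⟩
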